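import Pool.Agent.H70.GSC.Targets
import Pool.Agent.H6.GS2.Bas

/-!
# Theorem (G), MP_c59857_nt: CRL, the correlation at the frequencies of an optimal sum
-/

set_option autoImplicit false

open Finset Pool.Agent.H6.N4D Pool.Agent.H93 Pool.Agent.H93.GS Pool.Agent.H6.GS2
  Pool.Agent.H70.GSC

namespace Pool.Agent.H95.GSC

private lemma CRL_one (q N n : ℕ) (hN : 1 ≤ N) :
    ac 1 N n (fun m => (EB.D q m : ℂ)) = ac q N n (fun _ => 1) - 1 := by
  have hN0 : (N : ℂ) ≠ 0 := by exact_mod_cast (by omega : N ≠ 0)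
  unfold ac EB.D
  have h1 : (Ioc n (n + N)).filter (fun m => 1 ∣ m) = Ioc n (n + N) := by
    apply filter_true_of_mem
    intro m _
    exact one_dvd m
  rw [h1]
  have h2 : ∀ m : ℕ, (((if q ∣ m then (q : ℝ) else 0) - 1 : ℝ) : ℂ) =
      (if q ∣ m then (q : ℂ) else 0) - 1 := by
    intro m
    split_ifs <;> push_cast <;> ring
  simp only [h2]
  rw [sum_sub_distrib, ← sum_filter]
  simp only [sum_const, nsmul_eq_mul, mul_one, Nat.card_Ioc, Nat.cast_one]
  rw [show n + N - n = N by omega]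
  field_simp

theorem pf_CRL (hG : H6.GS2.T_GEX) (hK : H6.GS2.T_KER) : T_CRL := by
  intro th Λ lam q N n h hth hΛ hq hqN hh hsep j hj
  have hN : 1 ≤ N := hq.trans hqN
  have hNR : (0 : ℝ) < N := by exact_mod_cast hN
  have hqR : (0 : ℝ) < q := by exact_mod_cast hq
  have hone' : ‖ac q N n (fun _ => (1 : ℂ)) - 1‖ ≤ q / N := by
    rw [← CRL_one q N n hN]; exact (hK q N n 0 hq hqN).1
  have e1 : EB.crq lam q N n (h.a j) =
      rs lam q N n h (h.a j) + ac q N n (fun m => h.f m * ee (-(h.a j * m))) := by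
    unfold rs
    rw [← ac_add]
    show ac q N n (fun m => (lam m : ℂ) * ee (-(h.a j * m))) = _
    exact ac_congr _ _ _ fun m _ _ => by ring
  have e2 : ac q N n (fun m => h.f m * ee (-(h.a j * m))) =
      ∑ l ∈ range h.k, h.c l * ac q N n (fun m => ee ((h.a l - h.a j) * m)) := by
    have e3 : (fun m : ℕ => h.f m * ee (-(h.a j * m))) =
        fun m : ℕ => ∑ l ∈ range h.k, h.c l * ee ((h.a l - h.a j) * m) := by
      funext m
      unfold Ex.f
      rw [sum_mul]
      apply sum_congr rfl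
      intro l _
      rw [mul_assoc, ← ee_add]
      congr 2; ring
    rw [e3, ac_sum (F := fun l m => h.c l * ee ((h.a l - h.a j) * (m : ℝ)))]
    exact sum_congr rfl fun l _ => ac_mul _ _ _ _ _
  have e4 : ∑ l ∈ range h.k, (if l = j then h.c l else 0) = h.c j := by
    rw [sum_ite_eq']
    simp [mem_range.2 hj]
  have hE : ‖∑ l ∈ range h.k, h.c l * ac q N n (fun m => ee ((h.a l - h.a j) * m)) - h.c j‖ ≤
      (q / N + 1 / Λ) * h.nm := by
    rw [← e4, ← sum_sub_distrib]
    unfold Ex.nm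
    rw [mul_sum]
    apply (norm_sum_le _ _).trans
    apply sum_le_sum
    intro l hl
    have hl' := mem_range.1 hl
    by_cases hlj : l = j
    · subst hlj
      rw [if_pos rfl]
      have h1 : (fun m : ℕ => ee ((h.a l - h.a l) * (m : ℝ))) = fun _ => 1 := by
        funext m
        rw [sub_self, zero_mul, EB.ee_zero]
      rw [h1]
      have h2 : h.c l * ac q N n (fun _ => 1) - h.c l = h.c l * (ac q N n (fun _ => 1) - 1) := by
        ring
      rw [h2, norm_mul, mul_comm]
      apply mul_le_mul_of_nonneg_right _ (norm_nonneg _)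
      have : 0 < 1 / Λ := by positivity
      linarith
    · rw [if_neg hlj, sub_zero, norm_mul, mul_comm]
      apply mul_le_mul_of_nonneg_right _ (norm_nonneg _)
      have h1 := hsep l hl' j hj hlj
      have h0 : 0 < Λ * q / N := by positivity
      have h2 : 0 < nd (q * (h.a l - h.a j)) := h0.trans_le h1
      have h3 := hG q N n (h.a l - h.a j) hq hN h2
      have h4 : (q : ℝ) / (2 * N * nd (q * (h.a l - h.a j))) ≤ 1 / Λ := by
        rw [div_le_div_iff₀ (by positivity) hΛ]
        rw [div_le_iff₀ hNR] at h1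
        nlinarith
      have h5 : (0 : ℝ) ≤ q / N := by positivity
      linarith
  have hc : h.c j ≠ 0 := hh.nz j hj
  have hc' : 0 < ‖h.c j‖ := norm_pos_iff.2 hc
  have e5 : EB.crq lam q N n (h.a j) = ((th / ‖h.c j‖ + 1 : ℝ) : ℂ) * h.c j +
      (∑ l ∈ range h.k, h.c l * ac q N n (fun m => ee ((h.a l - h.a j) * m)) - h.c j) := by
    rw [e1, e2, hh.kt j hj]
    push_cast
    ring
  have e6 : ‖((th / ‖h.c j‖ + 1 : ℝ) : ℂ) * h.c j‖ = th + ‖h.c j‖ := by
    rw [norm_mul, Complex.norm_real, Real.norm_of_nonneg (by positivity)]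
    field_simp
  have h7 : ‖((th / ‖h.c j‖ + 1 : ℝ) : ℂ) * h.c j‖ ≤ ‖EB.crq lam q N n (h.a j)‖ +
      ‖∑ l ∈ range h.k, h.c l * ac q N n (fun m => ee ((h.a l - h.a j) * m)) - h.c j‖ := by
    have h8 : ((th / ‖h.c j‖ + 1 : ℝ) : ℂ) * h.c j = EB.crq lam q N n (h.a j) -
      (∑ l ∈ range h.k, h.c l * ac q N n (fun m => ee ((h.a l - h.a j) * m)) - h.c j) := by
      rw [e5]; ring
    rw [h8]
    exact norm_sub_le _ _
  rw [e6] at h7
  linarith

end Pool.Agent.H95.GSC
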