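import Pool.Agent.H70.GSC.Targets
import Pool.Agent.H6.GS2.Bas

/-!
# Theorem (G), MP_c59857_nt: LFT, moving the frequencies by multiples of `1 / q`
-/

set_option autoImplicit false

open Finset Pool.Agent.H6.N4D Pool.Agent.H93 Pool.Agent.H93.GS Pool.Agent.H6.GS2
  Pool.Agent.H70.GSC

namespace Pool.Agent.H95.GSC

theorem pf_LFT : T_LFT := by
  intro th lam q N n g h b hq hg hh
  have hf : ∀ m ∈ Ioc n (n + N), q ∣ m →
      (⟨h.k, h.c, fun j => h.a j + b j / q⟩ : Ex).f m = h.f m := by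
    intro m _ hqm
    obtain ⟨t, rfl⟩ := hqm
    unfold Ex.f
    apply sum_congr rfl
    intro j _
    have hq0 : (q : ℝ) ≠ 0 := by positivity
    have : (h.a j + b j / q) * ((q * t : ℕ) : ℝ) =
        h.a j * ((q * t : ℕ) : ℝ) + ((b j * t : ℤ) : ℝ) := by
      push_cast; field_simp
    simp only
    rw [this, ee_add, ee_int, mul_one]
  generalize hht : (⟨h.k, h.c, fun j => h.a j + b j / q⟩ : Ex) = ht at hf ⊢
  have hnm : ht.nm = h.nm := by rw [← hht]; rfl
  have hJ : J th lam q N n ht = J th lam q N n h := by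
    unfold J
    rw [hnm]
    congr 1
    apply ar_congr
    intro m hm hqm
    rw [hf m hm hqm]
  have hJ1 : J th lam q N n ht = J th lam 1 N n ht + lin lam q N n ht - nrm q N n ht := by
    unfold J lin nrm
    have e1 : ∀ q', ar q' N n (fun m => 2 * lam m * (ht.f m).re - ‖ht.f m‖ ^ 2) =
        2 * ar q' N n (fun m => lam m * (ht.f m).re) - ar q' N n (fun m => ‖ht.f m‖ ^ 2) := by
      intro q'
      rw [← ar_mul, ← ar_sub]
      exact ar_congr _ _ _ fun m _ _ => by ring
    rw [e1, e1]; ring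
  rw [← hh.mx, ← hJ, hJ1, J_exp hg ht]
  ring

end Pool.Agent.H95.GSC
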