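import Pool.Agent.H70.GSC.Targets
import Pool.Agent.H6.GS2.Bas

/-!
# Theorem (G), MP_c59857_nt: ZSH, tests at neighbouring frequencies
-/

set_option autoImplicit false

open Finset Pool.Agent.H6.N4D Pool.Agent.H93 Pool.Agent.H93.GS Pool.Agent.H6.GS2
  Pool.Agent.H70.GSC

namespace Pool.Agent.H95.GSC

private lemma ZSH_D (q N n : ℕ) (hq : 1 ≤ q) (hqN : q ≤ N) :
    ∑ m ∈ Ioc n (n + N), |EB.D q m| ≤ 3 * N := by
  have h1 : ∑ m ∈ Ioc n (n + N), |EB.D q m| ≤
      ∑ m ∈ Ioc n (n + N), ((if q ∣ m then (q : ℝ) else 0) + 1) := by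
    apply sum_le_sum
    intro m _
    unfold EB.D
    have h2 : (0 : ℝ) ≤ (if q ∣ m then (q : ℝ) else 0) := by
      split_ifs <;> positivity
    rw [abs_le]
    constructor <;> linarith
  refine h1.trans ?_
  rw [sum_add_distrib, ← sum_filter]
  simp only [sum_const, nsmul_eq_mul, mul_one, Nat.card_Ioc]
  rw [show n + N - n = N by omega]
  have h3 := card_mul_le q N n hq
  have h4 : (q : ℝ) ≤ N := by exact_mod_cast hqN
  linarith

private lemma ZSH_one (lam : ℕ → ℝ) (q N n : ℕ) (hl : ∀ m, |lam m| ≤ 1) (hq : 1 ≤ q)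
    (hqN : q ≤ N) (α β δ : ℝ) (hδ : 0 ≤ δ) (h : nd (α - β) ≤ δ / N) :
    EB.zz lam q N n β (fun _ => 1) ≤ EB.zz lam q N n α (fun _ => 1) + 20 * δ := by
  have hN : 1 ≤ N := hq.trans hqN
  have hNR : (0 : ℝ) < N := by exact_mod_cast hN
  set k : ℤ := round (α - β) with hk
  set y : ℝ := α - β - k with hy
  have hyd : |y| ≤ δ / N := h
  have hyN : |y| * N ≤ δ := by rwa [← le_div_iff₀ hNR]
  have hee : ∀ m : ℕ, ee (-(β * m)) = ee (y * n) * (ee (-(α * m)) * ee (y * ((m : ℝ) - n))) := by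
    intro m
    have h1 : -(β * (m : ℝ)) = (y * n + (-(α * m) + y * ((m : ℝ) - n))) + ((k * m : ℤ) : ℝ) := by
      rw [hy]; push_cast; ring
    rw [h1, ee_add, ee_int, mul_one, ee_add, ee_add]
  unfold EB.zz
  simp only [mul_one]
  have h2 : ∑ m ∈ Ioc n (n + N), (lam m : ℂ) * (EB.D q m : ℂ) * ee (-(β * m)) =
      ee (y * n) * (∑ m ∈ Ioc n (n + N), (lam m : ℂ) * (EB.D q m : ℂ) * ee (-(α * m)) +
        ∑ m ∈ Ioc n (n + N), (lam m : ℂ) * (EB.D q m : ℂ) * ee (-(α * m)) *
          (ee (y * ((m : ℝ) - n)) - 1)) := by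
    rw [← sum_add_distrib, mul_sum]
    apply sum_congr rfl
    intro m _
    rw [hee m]; ring
  rw [norm_div, norm_div, Complex.norm_natCast, h2, norm_mul, norm_ee, one_mul]
  have h3 : ‖∑ m ∈ Ioc n (n + N), (lam m : ℂ) * (EB.D q m : ℂ) * ee (-(α * m)) *
      (ee (y * ((m : ℝ) - n)) - 1)‖ ≤ 20 * δ * N := by
    apply (norm_sum_le _ _).trans
    have h4 : ∀ m ∈ Ioc n (n + N), ‖(lam m : ℂ) * (EB.D q m : ℂ) * ee (-(α * m)) *
        (ee (y * ((m : ℝ) - n)) - 1)‖ ≤ |EB.D q m| * (2 * Real.pi * δ) := by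
      intro m hm
      rw [mem_Ioc] at hm
      rw [norm_mul, norm_mul, norm_mul, norm_ee, mul_one, Complex.norm_real, Complex.norm_real,
        Real.norm_eq_abs, Real.norm_eq_abs]
      have h5 := norm_ee_sub_one_le (y * ((m : ℝ) - n))
      have h6 : |y * ((m : ℝ) - n)| ≤ δ := by
        rw [abs_mul]
        have h7 : |(m : ℝ) - n| ≤ N := by
          have h8 : (n : ℝ) < m := by exact_mod_cast hm.1
          have h9 : (m : ℝ) ≤ n + N := by exact_mod_cast hm.2
          rw [abs_le]; constructor <;> linarith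
        exact (mul_le_mul_of_nonneg_left h7 (abs_nonneg _)).trans hyN
      have h10 : ‖ee (y * ((m : ℝ) - n)) - 1‖ ≤ 2 * Real.pi * δ :=
        h5.trans (mul_le_mul_of_nonneg_left h6 (by positivity))
      have h11 : |lam m| * |EB.D q m| ≤ |EB.D q m| := by
        have := mul_le_mul_of_nonneg_right (hl m) (abs_nonneg (EB.D q m))
        linarith
      exact mul_le_mul h11 h10 (norm_nonneg _) (abs_nonneg _)
    refine (sum_le_sum h4).trans ?_
    rw [← sum_mul]
    have h12 := ZSH_D q N n hq hqN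
    have h13 : (0 : ℝ) ≤ 2 * Real.pi * δ := by positivity
    have h14 := mul_le_mul_of_nonneg_right h12 h13
    have h15 : 3 * (N : ℝ) * (2 * Real.pi * δ) ≤ 20 * δ * N := by
      have hpi := Real.pi_lt_d2
      have h16 : 0 ≤ (N : ℝ) * δ := by positivity
      nlinarith
    linarith
  rw [div_add' _ _ _ hNR.ne', div_le_div_iff_of_pos_right hNR]
  exact (norm_add_le _ _).trans (by linarith)

private lemma ZSH_abs (q N n : ℕ) (F : ℕ → ℝ) (c : ℝ) (hF : ∀ m, |F m| ≤ c) :
    |ar q N n F| ≤ c * ar q N n (fun _ => 1) := by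
  rw [← ar_mul]
  rw [abs_le]
  constructor
  · rw [neg_le]
    have h1 : -ar q N n F = ar q N n (fun m => -1 * F m) := by rw [ar_mul]; ring
    rw [h1]
    apply ar_mono
    intro m _ _
    have := (abs_le.1 (hF m)).1
    linarith
  · apply ar_mono
    intro m _ _
    have := (abs_le.1 (hF m)).2
    linarith

theorem pf_ZSH : T_ZSH := by
  intro lam q N n hl hq hqN
  have hN : 1 ≤ N := hq.trans hqN
  have hNR : (0 : ℝ) < N := by exact_mod_cast hN
  refine ⟨fun α β δ hδ h => ZSH_one lam q N n hl hq hqN α β δ hδ h, ?_, ?_⟩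
  · intro γ
    unfold zA
    apply Real.sSup_nonneg
    rintro x ⟨g, _, rfl⟩
    unfold EB.zz
    exact norm_nonneg _
  · intro g
    have hF : ∀ m, |lam m * (g.f m).re| ≤ g.nm := by
      intro m
      rw [abs_mul]
      have h1 : |(g.f m).re| ≤ g.nm := (Complex.abs_re_le_norm _).trans (norm_f_le g m)
      have h2 := mul_le_mul (hl m) h1 (abs_nonneg _) zero_le_one
      linarith
    have h1 := ZSH_abs q N n (fun m => lam m * (g.f m).re) g.nm hF
    have h2 := ZSH_abs 1 N n (fun m => lam m * (g.f m).re) g.nm hF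
    have h3 := ar_one_le q N n hq hN
    have h4 : ar 1 N n (fun _ => 1) = 1 := by
      unfold ar
      have h5 : (Ioc n (n + N)).filter (fun m => 1 ∣ m) = Ioc n (n + N) := by
        apply filter_true_of_mem
        intro m _
        exact one_dvd m
      rw [h5]
      simp only [sum_const, nsmul_eq_mul, mul_one, Nat.card_Ioc, Nat.cast_one]
      rw [show n + N - n = N by omega]
      exact div_self hNR.ne'
    have h6 : (q : ℝ) / N ≤ 1 := by
      rw [div_le_one hNR]; exact_mod_cast hqN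
    have h7 := nm_nonneg g
    have h8 : g.nm * ar q N n (fun _ => 1) ≤ g.nm * 2 :=
      mul_le_mul_of_nonneg_left (by linarith) h7
    rw [h4] at h2
    unfold lin
    rw [abs_mul, abs_two]
    have h9 := abs_sub (ar q N n (fun m => lam m * (g.f m).re))
      (ar 1 N n (fun m => lam m * (g.f m).re))
    linarith

end Pool.Agent.H95.GSC
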